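import Pool.Agent.E8helper96.HT.Nec3
import Pool.Agent.E8helper96.HT.Suff

/-!
# The weights for the Hilbert transform on functions of mean zero

For `1 < p < ∞` a weight `U` satisfies `∫ |Hf|^p U ≤ C ∫ |f|^p U` for all `f ∈ L¹(ℝ)` with
`∫ f = 0` if and only if one of the following holds:

* `U ∈ A_p`;
* `(1 + x²)^{-p/2} U ∈ A_p`;
* `|x - a|^{-p} U ∈ A_p` for some real number `a`.
-/

set_option autoImplicit false

open MeasureTheory Filter Topology Set
open scoped ENNReal NNReal Real

namespace Pool.Agent.Results.MP_945c9c_an.MeanZeroWeightsH96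

open Pool.Agent.E8helper96.HT

theorem real_of_complex {p : ℝ} {U : ℝ → ℝ} (h : Admissible p U) : AdmissibleReal p U := by
  obtain ⟨C, hC⟩ := h
  refine ⟨C, fun f hf h0 => ?_⟩
  have h1 := hC (fun y => (f y : ℂ)) hf.ofReal (by rw [integral_complex_ofReal, h0]; simp)
  refine h1.trans (le_of_eq ?_)
  congr 1
  apply lintegral_congr
  intro x
  congr 2
  rw [← ofReal_norm, ← ofReal_norm, Complex.norm_real]

theorem sufficiency {p : ℝ} (hp : 1 < p) {U : ℝ → ℝ} (hU : IsWeight U)
    (h : MemAp p U ∨ MemAp p (fun x => (1 + x ^ 2) ^ (-(p / 2)) * U x) ∨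
      ∃ a : ℝ, MemAp p (fun x => |x - a| ^ (-p) * U x)) : Admissible p U := by
  rcases h with h | h | ⟨a, h⟩
  · exact suff_A hp hU h
  · apply suff_z hp hU Complex.I
    have e : (fun x : ℝ => ‖(x : ℂ) - Complex.I‖ ^ (-p) * U x) =
        fun x => (1 + x ^ 2) ^ (-(p / 2)) * U x := by
      ext x
      rw [nI_rpow]
      rfl
    rw [e]
    exact h
  · apply suff_z hp hU (a : ℂ)
    have e : (fun x : ℝ => ‖(x : ℂ) - (a : ℂ)‖ ^ (-p) * U x) =
        fun x => |x - a| ^ (-p) * U x := by
      ext x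
      rw [sub_norm]
    rw [e]
    exact h

/-- **Characterisation of the weights admissible for mean-zero functions.** -/
theorem result (p : ℝ) (hp : 1 < p) (U : ℝ → ℝ) (hU : IsWeight U) :
    [Admissible p U,
      AdmissibleReal p U,
      MemAp p U ∨ MemAp p (fun x => (1 + x ^ 2) ^ (-(p / 2)) * U x) ∨
        ∃ a : ℝ, MemAp p (fun x => |x - a| ^ (-p) * U x)].TFAE := by
  tfae_have 1 → 2 := real_of_complex
  tfae_have 2 → 3 := necessity hp hU
  tfae_have 3 → 1 := sufficiency hp hU
  tfae_finish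

end Pool.Agent.Results.MP_945c9c_an.MeanZeroWeightsH96
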